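import Pool.Agent.Helper33.Mono.All
import Pool.Agent.Helper10.Mono.NewtonFan
import Pool.Agent.Helper24.Mono.LinkTri
import Pool.Agent.Helper32.Mono.LinkSum
import Pool.Agent.Helper90.Mono.FanB
import Pool.Agent.Helper80.Mono.IdxProj
import Pool.Agent.Helper80.Mono.CellLat
import Pool.Agent.Helper75.Mono.CellVol
import Pool.Agent.Helper94.Mono.CellSum
import Pool.Agent.Helper77.Mono.ZetaEmpty
import Pool.Agent.Helper71.Mono.CycloEq
import Pool.Agent.Helper83.Mono.ZetaAxis
import Pool.Agent.Helper20.Mono.CellDecomp
import Pool.Agent.Helper20.Mono.Final3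
import Pool.Agent.Helper92.MonoStab.Emb

/-!
# The local topological monodromy conjecture for functions which are Newton nondegenerate after a
re-embedding

Let `V = {g_1 = … = g_k = 0} ⊂ (ℂ^N, 0)` be smooth at the origin (the linear parts of the `g_j` are
linearly independent), let `h` be a polynomial without constant and linear terms, and `f = h|V`, a
germ of a function on `(ℂ^n, 0)`, `n = N - k`.  (Every singular germ `f` of a function on `V` is of
this form: subtract a linear combination of the `g_j` from `h`.)  Put
`F = lagr h g = h(x) + ∑ λ_j g_j(x)`, a polynomial in the `n + 2 k` variables `x_i`, `λ_j`.  We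
assume that `F` is nondegenerate with respect to its Newton polyhedron; this is the case if the
systems `(g_j, j ∈ J)` and `(h; g_j, j ∈ J)` are nondegenerate in the sense of Khovanskii for all
subsets `J`.  There is no other hypothesis; `k = 0` is the case of a Newton nondegenerate `f = h`.  For `k > 0` the function
`f` may be degenerate in every coordinate system of `ℂ^n`.  The hypothesis (C) of our
`CompleteIntersection`, on the monomials of `h` and `g_j`, is not needed.  An example which
satisfies neither (C) nor the hypotheses of our other theorems is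
`f = (x² - y³)^a + x^b z^c + z^d`, with `h = w^a + x^b z^c + z^d`, `g = w - x² + y³`.

In coordinates `(u, w)` of `ℂ^N` with `g_j = w_j` one has `h(u, w) = h(u, 0) + ∑ w_j h_j(u, w)` with
`h_j(0) = 0`, so that `F = h(u, 0) + ∑ w_j (λ_j + h_j(u, w))`: the germ of `F` at the origin is
right equivalent to `f(u) + w_1 λ_1 + … + w_k λ_k`.  Hence:

* by the Thom–Sebastiani formula of Denef and Loeser,
  `Z_F(s) = k / ((s+1)(s+k)) + s (s+k+1) / ((s+1)(s+k)) Z_f(s+k)`, so
  `Z_f(s) = (s (s+1-k) Z_F(s-k) - k) / ((s-k)(s+1))`, which is `desus k Z_F`, and by the formula of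
  Denef and Loeser for nondegenerate functions `Z_F = ZDL (expo F) T` for every simplicial fan `T`
  refining the dual fan of the Newton polyhedron of `F`.  So `desus k (ZDL (expo F) T)` is the local
  topological zeta function of `f` at the origin;
* the critical points of `F` near the origin are the critical points of `f` (with `w = λ' = 0`), and
  by the theorem of Sebastiani and Thom the monodromies of `F` and of `f` at such a point have the
  same eigenvalues on reduced cohomology (a nondegenerate quadratic form in `2 k` variables has
  trivial monodromy); at the other points of `F = 0` the monodromy has only the eigenvalue `1`.  So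
  the eigenvalues other than `1` of the monodromy of `F` at points near the origin are eigenvalues
  of the monodromy of `f` at points near the origin;
* `zetaV (expo F)` is the monodromy zeta function of `F` at the origin (Varchenko);
* for a set `K` of the coordinates `x_i`, `λ_j` such that `F` vanishes on the coordinate subspace of
  `K`, and for positive weights `b_i` linearly independent over `ℚ`, `zetaS (expo F) K b` is, up to
  a power of `1 - T`, the product of the monodromy zeta functions of `F` at the points of the slice
  `y_i = c_i t^{b_i}` (`i ∈ K`, `c_i` general constants), `|y_i| < t^{b_i}` (`i ∉ K`), `t → 0`,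
  `y = (x, λ)`, each with the Euler characteristic of its stratum as exponent (A'Campo).  Hence its
  zeros and poles other than `1` are eigenvalues of the monodromy of `f` at points arbitrarily near
  the origin (and `1` is the case of an integer `s₀`).

The theorem: adapted fans exist, and every pole `s₀` of `desus k (ZDL (expo F) T)` is an integer, or
`exp(2 π i s₀)` is a zero or a pole of one of these monodromy zeta functions.
-/

namespace Pool.Agent.Results.MP_aa7fc1_ag.ReembeddedNondegenerate

open Mono

theorem result {N k : ℕ} (h : MvPolynomial (Fin N) ℂ) (g : Fin k → MvPolynomial (Fin N) ℂ)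
    (hh : h ≠ 0) (h0 : h.coeff 0 = 0)
    (b : Fin (N + k) → ℝ) (hb : ∀ i, 0 < b i) (hlin : LinearIndependent ℚ b) :
    (∃ T : Fan (N + k), Adapted (expo (lagr h g)) T) ∧
    ∀ T : Fan (N + k), Adapted (expo (lagr h g)) T →
      ∀ s₀ : ℂ, (desus k (ZDL (expo (lagr h g)) T)).denom.eval s₀ = 0 →
      (∃ m : ℤ, s₀ = m) ∨
      ZeroOrPole (zetaV (expo (lagr h g))) (Complex.exp (2 * Real.pi * Complex.I * s₀)) ∨
      ∃ K : Finset (Fin (N + k)), K.Nonempty ∧
        (∀ d : Fin (N + k) →₀ ℕ, (∀ i, i ∉ K → d i = 0) → (lagr h g).coeff d = 0) ∧
        ZeroOrPole (zetaS (expo (lagr h g)) K b)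
          (Complex.exp (2 * Real.pi * Complex.I * s₀)) := by
  have hS := spanT
  have hSC := starCoverT
  have hW := wallT hS hSC
  have hB := bdryT hS hSC
  have hK := kFormula hS hW hB idxPos idxWall idxBdry
  have hL := lowDegree hK
  have hA := algMain hS hSC
  have hBox := boxCount idxPos
  have hMF := multFormula hBox hS
  have hPV := pairVanish hL
  have hCK := classKill hPV
  have hCM := classMain hA hMF hCK
  have hCL := classLimit hL
  have hKZ := killZero volHeight
  have hLW := limitW hCL hKZ
  have hLO := laplaceOrthant hS hW hB idxPos idxWall idxBdry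
  have hPr := primalAssembly idxPos hS hK hLO dualLattice (sideDual hS hSC) (sidePrimal hS hSC)
  have hSCt := simplexCount idxPos
  have hNV := nvolSum hSCt
  have hFZ := faceSumZ hNV
  have hFM := faceSumMult hNV
  have hZW := zwIdentity hPr hK
  have hZF := zFormula hZW hFZ hLW
  have hDF := dualFan fanOfGeneric genericHeights coneGen
  have hCV := cellVol cellDecomp hSCt idxProj
  have hCS := cellSum hCV
  obtain ⟨h1, h2, -⟩ := Fin20.final3 fanB hDF hZF zEval poleLemma hCM cycloLemma hCS cellLat
    zetaEmpty (zetaAxis cellLat fanB hCS hFM linkTri linkSum cycloEq) (lagr h g)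
    (Stab.lagr_ne_zero h g hh) (Stab.lagr_coeff_zero h g h0) b hb hlin
  refine ⟨h1, fun T hT s₀ hs₀ => ?_⟩
  rcases Stab.denom_desus hs₀ with hs | hs | hs
  · exact Or.inl ⟨k, by rw [hs]; push_cast; rfl⟩
  · exact Or.inl ⟨-1, by rw [hs]; push_cast; rfl⟩
  · have h3 := h2 T hT (s₀ - k) hs
    rw [Stab.exp_shift] at h3
    rcases h3 with ⟨m, hm⟩ | h3
    · exact Or.inl ⟨m + k, by push_cast; rw [← hm]; ring⟩
    · exact Or.inr h3

end Pool.Agent.Results.MP_aa7fc1_ag.ReembeddedNondegenerate
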